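import Mathlib
import Pool.Agent.R61.TotBip2

/-!
# Extending total colourings of distance-3 matchings in bipartite graphs with a suitable matching
-/

set_option autoImplicit false

namespace Pool.Agent.Results.MP_db9399_co.BipartiteMatching

open Pool.Agent.R61.TotExt Pool.Agent.TH559.LE

/-- Let `G` be a bipartite graph (every edge has exactly one end in `X`) with all degrees at most
`Δ`, and let `H` be a distance-3 matching of `G` (each vertex has at most one neighbour in `H`, and
ends of different edges of `H` are at distance at least 3 in `G`).  Suppose that `G` has a matching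
`M` that covers all vertices of degree `Δ` and contains every edge `uv` of `H`, `u ∈ X`, for which
there is a path `u y x w` in `G` such that `y` and `x` are not covered by `H` and `w` is covered by
`H`.  Then every total colouring `(f0, g0)` of `H` with `Δ + 2` colours extends to a total
colouring `(f, g)` of `G` with `Δ + 2` colours. -/
theorem result {V : Type} [Fintype V] (G H M : SimpleGraph V) (Δ : ℕ) (X : Set V)
    (hX : ∀ u v, G.Adj u v → (u ∈ X ↔ v ∉ X))
    (hΔ : ∀ v, (G.neighborSet v).ncard ≤ Δ)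
    (hHG : H ≤ G) (hmatch : ∀ u v w, H.Adj u v → H.Adj u w → v = w)
    (hdist : ∀ u v x y, H.Adj u v → H.Adj x y → s(u, v) ≠ s(x, y) → 3 ≤ G.edist u x)
    (hMG : M ≤ G) (hMmatch : ∀ u v w, M.Adj u v → M.Adj u w → v = w)
    (hMcover : ∀ v, (G.neighborSet v).ncard = Δ → ∃ w, M.Adj v w)
    (hMH : ∀ u v y x w, H.Adj u v → u ∈ X → G.Adj u y → G.Adj y x → G.Adj x w →
      (∀ z, ¬ H.Adj y z) → (∀ z, ¬ H.Adj x z) → (∃ z, H.Adj w z) → M.Adj u v)
    (f0 : V → Fin (Δ + 2)) (g0 : Sym2 V → Fin (Δ + 2)) (h0 : IsTotal H f0 g0) :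
    ∃ (f : V → Fin (Δ + 2)) (g : Sym2 V → Fin (Δ + 2)), IsTotal G f g ∧
      ∀ u v, H.Adj u v → f u = f0 u ∧ g s(u, v) = g0 s(u, v) :=
  dist3_bip G H M Δ (fun v => v ∈ X) hX hΔ hHG hmatch hdist hMG hMmatch hMcover hMH f0 g0 h0

end Pool.Agent.Results.MP_db9399_co.BipartiteMatching
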