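import Mathlib
import Pool.Agent.R61.TotBip2

/-!
# Extending total colourings of distance-3 matchings in bipartite graphs that are not too dense
-/

set_option autoImplicit false

namespace Pool.Agent.Results.MP_db9399_co.BipartiteSparse

open Pool.Agent.R61.TotExt Pool.Agent.TH559.LE

/-- Let `G` be a bipartite graph (every edge has exactly one end in `X`) with all degrees at most
`Δ` in which every induced subgraph has average degree at most `Δ - 1`.  Let `H` be a distance-3
matching of `G` (each vertex has at most one neighbour in `H`, and ends of different edges of `H`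
are at distance at least 3 in `G`).  Then every total colouring `(f0, g0)` of `H` with `Δ + 2`
colours extends to a total colouring `(f, g)` of `G` with `Δ + 2` colours. -/
theorem result {V : Type} [Fintype V] (G H : SimpleGraph V) (Δ : ℕ) (X : Set V)
    (hX : ∀ u v, G.Adj u v → (u ∈ X ↔ v ∉ X))
    (hΔ : ∀ v, (G.neighborSet v).ncard ≤ Δ)
    (hsparse : ∀ A : Finset V, ∑ v ∈ A, (G.neighborSet v ∩ A).ncard ≤ (Δ - 1) * A.card)
    (hHG : H ≤ G) (hmatch : ∀ u v w, H.Adj u v → H.Adj u w → v = w)
    (hdist : ∀ u v x y, H.Adj u v → H.Adj x y → s(u, v) ≠ s(x, y) → 3 ≤ G.edist u x)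
    (f0 : V → Fin (Δ + 2)) (g0 : Sym2 V → Fin (Δ + 2)) (h0 : IsTotal H f0 g0) :
    ∃ (f : V → Fin (Δ + 2)) (g : Sym2 V → Fin (Δ + 2)), IsTotal G f g ∧
      ∀ u v, H.Adj u v → f u = f0 u ∧ g s(u, v) = g0 s(u, v) := by
  classical
  by_cases hΔ2 : 2 ≤ Δ
  · have hB : ∀ v w z w' z', G.Adj v w → H.Adj w z → G.Adj v w' → H.Adj w' z' →
        s(w, z) = s(w', z') := by
      intro v w z w' z' hvw hwz hvw' hwz'
      by_contra hne
      have h3 := hdist w z w' z' hwz hwz' hne
      have h4 : G.edist w w' ≤ 2 := by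
        have := SimpleGraph.edist_le (SimpleGraph.Walk.cons hvw.symm
          (SimpleGraph.Walk.cons hvw' SimpleGraph.Walk.nil))
        simpa using this
      have h5 : (3 : ℕ∞) ≤ 2 := h3.trans h4
      exact absurd h5 (by decide)
    obtain ⟨M, hMG, hHM, hMm, hMc⟩ := match_ext G H Δ (fun v => v ∈ X) hX hHG hmatch hB hΔ2 hsparse
    exact dist3_bip G H M Δ (fun v => v ∈ X) hX hΔ hHG hmatch hdist hMG hMm hMc
      (fun u v _ _ _ huv _ _ _ _ _ _ _ => hHM huv) f0 g0 h0
  · have hno : ∀ u v, ¬ G.Adj u v := by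
      intro u v huv
      have h1 := hsparse {u, v}
      have h2 : Δ - 1 = 0 := by omega
      rw [h2, zero_mul, Nat.le_zero, Finset.sum_eq_zero_iff] at h1
      have h3 := h1 u (by simp)
      rw [Set.ncard_eq_zero (Set.toFinite _), Set.eq_empty_iff_forall_notMem] at h3
      exact h3 v ⟨huv, by simp⟩
    refine ⟨f0, g0, ⟨fun u v huv => absurd huv (hno u v),
      fun u v w huv => absurd huv (hno u v), fun u v huv => absurd huv (hno u v)⟩,
      fun u v _ => ⟨rfl, rfl⟩⟩

end Pool.Agent.Results.MP_db9399_co.BipartiteSparse
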