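import Mathlib
import Pool.Agent.R61.TotSys

/-!
# Extending total colourings of distance-3 matchings: a condition on neighbours
-/

set_option autoImplicit false

namespace Pool.Agent.Results.MP_db9399_co.LocalDegree

open Pool.Agent.R61.TotExt Pool.Agent.TH559.LE

/-- Let all degrees of `G` be at most `Δ`, let `k` satisfy `2k ≤ Δ ≤ 3k + 4`, and suppose that
every vertex of degree more than `k` has at most `Δ - k - 2` neighbours of degree more than `k`.
Let `H` be a distance-3 matching of `G` (each vertex has at most one neighbour in `H`, and ends of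
different edges of `H` are at distance at least 3 in `G`).  Then every total colouring
`(f0, g0)` of `H` with `Δ + 2` colours extends to a total colouring `(f, g)` of `G` with
`Δ + 2` colours. -/
theorem result {V : Type} [Fintype V] (G H : SimpleGraph V) (Δ k : ℕ)
    (hΔ : ∀ v, (G.neighborSet v).ncard ≤ Δ) (hk1 : 2 * k ≤ Δ) (hk2 : Δ ≤ 3 * k + 4)
    (hlocal : ∀ v, k < (G.neighborSet v).ncard →
      {w | G.Adj v w ∧ k < (G.neighborSet w).ncard}.ncard + k + 2 ≤ Δ)
    (hHG : H ≤ G) (hmatch : ∀ u v w, H.Adj u v → H.Adj u w → v = w)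
    (hdist : ∀ u v x y, H.Adj u v → H.Adj x y → s(u, v) ≠ s(x, y) → 3 ≤ G.edist u x)
    (f0 : V → Fin (Δ + 2)) (g0 : Sym2 V → Fin (Δ + 2)) (h0 : IsTotal H f0 g0) :
    ∃ (f : V → Fin (Δ + 2)) (g : Sym2 V → Fin (Δ + 2)), IsTotal G f g ∧
      ∀ u v, H.Adj u v → f u = f0 u ∧ g s(u, v) = g0 s(u, v) := by
  classical
  refine dist3 G H Δ hΔ hHG hmatch hdist f0 g0 h0 ?_
  intro L hs
  refine list_local hs k hk1 hk2 ?_
  intro v hv
  have h1 : dg (G \ H) v ≤ dg G v := dg_mono sdiff_le v
  have h2 := hlocal v (lt_of_lt_of_le hv h1)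
  have h3 : {w | (G \ H).Adj v w ∧ k < dg (G \ H) w}.ncard ≤
      {w | G.Adj v w ∧ k < (G.neighborSet w).ncard}.ncard := by
    refine Set.ncard_le_ncard ?_ (Set.toFinite _)
    rintro w ⟨h4, h5⟩
    exact ⟨h4.1, lt_of_lt_of_le h5 (dg_mono sdiff_le w)⟩
  omega

end Pool.Agent.Results.MP_db9399_co.LocalDegree
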